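import Pool.Agent.H295R2.P

/-! The kernel `(1 - e^{-z}) / z^2` and its Laplace inversion. -/

set_option autoImplicit false

open MeasureTheory Filter Topology Set

namespace Pool.Agent.H959R2.Mol

open Pool.Agent.H295R2

noncomputable section

/-- the kernel -/
def kap (z : ℂ) : ℂ := (1 - Complex.exp (-z)) / z ^ 2

/-- the trapezoid `max 0 (min 1 x)` -/
def vv (x : ℝ) : ℝ := max 0 (min 1 x)

lemma vv_nonneg (x : ℝ) : 0 ≤ vv x := le_max_left _ _
lemma vv_le_one (x : ℝ) : vv x ≤ 1 := max_le (by norm_num) (min_le_left _ _)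
lemma vv_of_nonpos {x : ℝ} (h : x ≤ 0) : vv x = 0 := by
  unfold vv; rw [max_eq_left]; exact (min_le_right _ _).trans h
lemma vv_of_nonneg {x : ℝ} (h : 0 ≤ x) : vv x = min 1 x := by
  unfold vv; rw [max_eq_right]; exact le_min (by norm_num) h
lemma vv_of_one_le {x : ℝ} (h : 1 ≤ x) : vv x = 1 := by
  rw [vv_of_nonneg (by linarith), min_eq_left h]
lemma vv_continuous : Continuous vv := by unfold vv; fun_prop

lemma kap_continuousAt {z : ℂ} (hz : z ≠ 0) : ContinuousAt kap z := by
  unfold kap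
  refine ContinuousAt.div (by fun_prop) (by fun_prop) (pow_ne_zero 2 hz)

lemma norm_sq_ge {c0 : ℝ} (hc0 : 0 < c0) (hc1 : c0 ≤ 1) {z : ℂ}
    (h : c0 ≤ |z.re| ∨ 1 ≤ |z.im|) : c0 ^ 2 / 4 * (1 + |z.im|) ^ 2 ≤ ‖z‖ ^ 2 := by
  rw [Complex.sq_norm, Complex.normSq_apply]
  have h1 := abs_nonneg z.im
  have h2 := abs_nonneg z.re
  have e1 : z.re * z.re = |z.re| ^ 2 := by rw [sq_abs]; ring
  have e2 : z.im * z.im = |z.im| ^ 2 := by rw [sq_abs]; ring
  rw [e1, e2]
  have h3 : c0 ^ 2 ≤ 1 := by nlinarith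
  have h4 : (1 + |z.im|) ^ 2 ≤ 2 * (1 + |z.im| ^ 2) := by nlinarith [sq_nonneg (1 - |z.im|)]
  rcases h with h | h
  · have h5 : c0 ^ 2 ≤ |z.re| ^ 2 := by nlinarith
    have h6 : c0 ^ 2 * |z.im| ^ 2 ≤ |z.im| ^ 2 := by nlinarith [sq_nonneg |z.im|]
    nlinarith [mul_le_mul_of_nonneg_left h4 (sq_nonneg c0)]
  · have h5 : (1 + |z.im|) ^ 2 ≤ 4 * |z.im| ^ 2 := by nlinarith
    have h6 : c0 ^ 2 * (1 + |z.im|) ^ 2 ≤ 1 * (1 + |z.im|) ^ 2 :=
      mul_le_mul_of_nonneg_right h3 (by positivity)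
    nlinarith [sq_nonneg |z.re|]

lemma kap_bound {c0 : ℝ} (hc0 : 0 < c0) (hc1 : c0 ≤ 1) {a : ℝ} {z : ℂ} (ha : a ≤ z.re)
    (h : c0 ≤ |z.re| ∨ 1 ≤ |z.im|) :
    ‖kap z‖ ≤ 4 / c0 ^ 2 * (1 + Real.exp (-a)) * (1 + |z.im|) ^ (-2 : ℝ) := by
  have h1 := norm_sq_ge hc0 hc1 h
  have h0 : (0 : ℝ) < 1 + |z.im| := by have := abs_nonneg z.im; linarith
  have h2 : ‖1 - Complex.exp (-z)‖ ≤ 1 + Real.exp (-a) := by
    refine (norm_sub_le _ _).trans ?_
    rw [norm_one, Complex.norm_exp]
    have : Real.exp ((-z).re) ≤ Real.exp (-a) := Real.exp_le_exp.mpr (by simpa using ha)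
    linarith
  have h3 : (1 + |z.im|) ^ (-2 : ℝ) = 1 / (1 + |z.im|) ^ 2 := by
    rw [Real.rpow_neg h0.le, Real.rpow_two, one_div]
  rw [h3]
  unfold kap
  rw [norm_div, norm_pow, mul_one_div]
  have h4 : 4 / c0 ^ 2 * (1 + Real.exp (-a)) / (1 + |z.im|) ^ 2 =
      (1 + Real.exp (-a)) / (c0 ^ 2 / 4 * (1 + |z.im|) ^ 2) := by
    field_simp
  rw [h4]
  exact div_le_div₀ (by positivity) h2 (by positivity) h1

lemma kap_bound' {c : ℝ} (hc : 0 < c) : ∃ B : ℝ, 0 < B ∧ ∀ z : ℂ, z.re = c →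
    ‖kap z‖ ≤ B * (1 + |z.im|) ^ (-(3 / 2 : ℝ)) := by
  refine ⟨4 / (min 1 c) ^ 2 * (1 + Real.exp (-c)), by positivity, fun z hz => ?_⟩
  have h1 := kap_bound (c0 := min 1 c) (by positivity) (min_le_left _ _) (a := c) (z := z) hz.ge
    (Or.inl (by rw [hz, abs_of_pos hc]; exact min_le_right _ _))
  refine h1.trans (mul_le_mul_of_nonneg_left ?_ (by positivity))
  exact Real.rpow_le_rpow_of_exponent_le (by have := abs_nonneg z.im; linarith) (by norm_num)

/-- the Laplace transform of the trapezoid -/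
lemma laplace {s : ℂ} (hs : 0 < s.re) :
    Integrable (fun x : ℝ => (vv x : ℂ) * Complex.exp (-s * x)) ∧
    ∫ x : ℝ, (vv x : ℂ) * Complex.exp (-s * x) = kap s := by
  have hs0 : s ≠ 0 := by rintro rfl; simp at hs
  have hneg : (-s).re < 0 := by simpa using hs
  -- the two pieces
  have e1 : (fun x : ℝ => (vv x : ℂ) * Complex.exp (-s * x)) =
      fun x => (Ioc (0 : ℝ) 1).indicator (fun x : ℝ => (x : ℂ) * Complex.exp (-s * x)) x +
        (Ioi (1 : ℝ)).indicator (fun x : ℝ => Complex.exp (-s * x)) x := by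
    ext x
    rcases le_or_gt x 0 with h0 | h0
    · rw [vv_of_nonpos h0, indicator_of_notMem (fun h => absurd h.1 (not_lt.mpr h0)),
        indicator_of_notMem (s := Ioi (1 : ℝ))
          (fun h => absurd (show (1 : ℝ) < x from h) (by linarith))]
      simp
    · rcases le_or_gt x 1 with h1 | h1
      · rw [vv_of_nonneg h0.le, min_eq_right h1, indicator_of_mem (show x ∈ Ioc 0 1 from ⟨h0, h1⟩),
          indicator_of_notMem (s := Ioi (1 : ℝ))
            (fun h => absurd (show (1 : ℝ) < x from h) (not_lt.mpr h1)), add_zero]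
      · rw [vv_of_one_le h1.le, indicator_of_notMem (fun h => absurd h.2 (not_le.mpr h1)),
          indicator_of_mem (show x ∈ Ioi 1 from h1)]
        simp
  have i1 : IntegrableOn (fun x : ℝ => (x : ℂ) * Complex.exp (-s * x)) (Ioc (0 : ℝ) 1) := by
    have hc : Continuous (fun x : ℝ => (x : ℂ) * Complex.exp (-s * x)) := by fun_prop
    exact (hc.integrableOn_Icc (a := 0) (b := 1)).mono_set Ioc_subset_Icc_self
  have i2 : IntegrableOn (fun x : ℝ => Complex.exp (-s * x)) (Ioi (1 : ℝ)) :=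
    integrableOn_exp_mul_complex_Ioi hneg 1
  constructor
  · rw [e1]
    exact (i1.integrable_indicator measurableSet_Ioc).add
      (i2.integrable_indicator measurableSet_Ioi)
  · rw [e1, integral_add (i1.integrable_indicator measurableSet_Ioc)
      (i2.integrable_indicator measurableSet_Ioi), integral_indicator measurableSet_Ioc,
      integral_indicator measurableSet_Ioi, integral_exp_mul_complex_Ioi hneg,
      ← intervalIntegral.integral_of_le (by norm_num : (0 : ℝ) ≤ 1)]
    have hder : ∀ x ∈ uIcc (0 : ℝ) 1, HasDerivAt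
        (fun x : ℝ => -(x : ℂ) * Complex.exp (-s * x) / s - Complex.exp (-s * x) / s ^ 2)
        ((x : ℂ) * Complex.exp (-s * x)) x := by
      intro x _
      have h1 : HasDerivAt (fun x : ℝ => (x : ℂ)) 1 x := Complex.ofRealCLM.hasDerivAt
      have h2 : HasDerivAt (fun x : ℝ => Complex.exp (-s * x)) (Complex.exp (-s * x) * (-s * 1)) x :=
        (h1.const_mul (-s)).cexp
      have h3 := ((h1.neg.mul h2).div_const s).sub (h2.div_const (s ^ 2))
      refine h3.congr_deriv ?_
      simp only [Pi.neg_apply]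
      field_simp
      ring
    rw [intervalIntegral.integral_eq_sub_of_hasDerivAt hder (by
      have hc : Continuous (fun x : ℝ => (x : ℂ) * Complex.exp (-s * x)) := by fun_prop
      exact hc.intervalIntegrable _ _)]
    unfold kap
    simp only [Complex.ofReal_one, Complex.ofReal_zero, mul_one, mul_zero, Complex.exp_zero]
    field_simp
    ring

/-- Laplace inversion for the trapezoid -/
lemma perron2 {c : ℝ} (hc : 0 < c) (x : ℝ) :
    ∫ y : ℝ, Complex.exp ((c + y * Complex.I) * x) * kap (c + y * Complex.I) =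
      2 * Real.pi * (vv x : ℂ) := by
  obtain ⟨B, hB0, hB⟩ := kap_bound' hc
  set f : ℝ → ℂ := fun x => (vv x : ℂ) * Complex.exp (-c * x) with hf
  have hfc : Continuous f := by
    have := vv_continuous
    rw [hf]
    fun_prop
  have hfi : Integrable f := (laplace (s := (c : ℂ)) (by simpa using hc)).1
  have hF : ∀ ξ : ℝ, FourierTransform.fourier f ξ = kap (c + 2 * Real.pi * ξ * Complex.I) := by
    intro ξ
    rw [Real.fourier_eq', ← (laplace (s := c + 2 * Real.pi * ξ * Complex.I) (by simpa using hc)).2]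
    refine integral_congr_ae (Eventually.of_forall fun v => ?_)
    simp only [hf, smul_eq_mul]
    rw [← mul_assoc, mul_comm (Complex.exp _) (vv v : ℂ), mul_assoc, ← Complex.exp_add]
    congr 2
    simp
    ring
  have hki : Integrable (fun y : ℝ => kap (c + y * Complex.I)) :=
    vertical_integrable (fun s hs => kap_continuousAt (by rintro rfl; simp at hs; linarith)) hB
  have hFi : Integrable (FourierTransform.fourier f) := by
    have h1 := scale_integrable hki
    exact h1.congr (Eventually.of_forall fun ξ => (hF ξ).symm)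
  have hinv := hfi.fourierInv_fourier_eq hFi (hfc.continuousAt (x := x))
  rw [Real.fourierInv_eq'] at hinv
  have h2 : ∀ ξ : ℝ, Complex.exp ((2 * Real.pi * inner ℝ ξ x : ℝ) * Complex.I) •
      FourierTransform.fourier f ξ = Complex.exp (-c * x) *
        (fun z : ℂ => Complex.exp (z * x) * kap z) (c + 2 * Real.pi * ξ * Complex.I) := by
    intro ξ
    rw [hF, smul_eq_mul]
    simp only
    rw [← mul_assoc, ← Complex.exp_add]
    congr 2
    simp
    ring
  have h5 := scale_integral (fun z : ℂ => Complex.exp (z * x) * kap z) c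
  rw [integral_congr_ae (Eventually.of_forall h2), integral_const_mul] at hinv
  rw [h5] at hinv
  simp only [hf] at hinv
  have h3 : Complex.exp (-(c : ℂ) * x) ≠ 0 := Complex.exp_ne_zero _
  rw [mul_comm (vv x : ℂ)] at hinv
  have h4 := mul_left_cancel₀ h3 hinv
  have hpi : (Real.pi : ℂ) ≠ 0 := by exact_mod_cast Real.pi_ne_zero
  have h6 : 2 * (Real.pi : ℂ) * (((2 * Real.pi)⁻¹ : ℝ) : ℂ) = 1 := by
    push_cast
    field_simp
  rw [← h4, ← mul_assoc, h6, one_mul]

end

end Pool.Agent.H959R2.Mol
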