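import Pool.Agent.H295R2.Mol.Defs
import Pool.Agent.H959R2.Mol.Kern

/-! Task 2 of the mollification project: `Lit → Approx`. -/

set_option autoImplicit false

open MeasureTheory Filter Topology Set

namespace Pool.Agent.H959R2.Mol

open Pool.Agent.H295R2 Pool.Agent.H295R2.Mol

noncomputable section

/-- the entire function `(1 - e^{-z}) / z` -/
def jj (z : ℂ) : ℂ := dslope (fun w => -Complex.exp (-w)) 0 z

lemma jj_diff : Differentiable ℂ jj := by
  rw [← differentiableOn_univ]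
  refine (Complex.differentiableOn_dslope univ_mem).mpr ?_
  exact (Differentiable.neg (by fun_prop)).differentiableOn

lemma jj_ne {z : ℂ} (hz : z ≠ 0) : jj z = (1 - Complex.exp (-z)) / z := by
  unfold jj
  rw [dslope_of_ne _ hz, slope_def_field]
  simp only [neg_zero, Complex.exp_zero, sub_zero]
  congr 1
  ring

lemma int_ek {c : ℝ} (hc : 0 < c) (x : ℝ) :
    Integrable (fun y : ℝ => Complex.exp ((c + y * Complex.I) * x) * kap (c + y * Complex.I)) := by
  obtain ⟨B, hB0, hB⟩ := kap_bound' hc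
  refine vertical_integrable (H := fun z => Complex.exp (z * x) * kap z) (a := c)
    (B := Real.exp (c * x) * B) ?_ ?_
  · intro s hs
    have hs0 : s ≠ 0 := by rintro rfl; simp at hs; linarith
    exact ContinuousAt.mul (by fun_prop) (kap_continuousAt hs0)
  · intro s hs
    rw [norm_mul, Complex.norm_exp, mul_assoc]
    have h1 : (s * (x : ℂ)).re = c * x := by simp [hs]
    rw [h1]
    exact mul_le_mul_of_nonneg_left (hB s hs) (Real.exp_pos _).le

lemma term_add (mu : ℕ → ℂ) (s z : ℂ) (n : ℕ) :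
    LSeries.term mu (s + z) n = LSeries.term mu s n * Complex.exp (-z * (Real.log n : ℝ)) := by
  rcases Nat.eq_zero_or_pos n with rfl | hn
  · simp
  · have hn0 : (n : ℂ) ≠ 0 := by exact_mod_cast hn.ne'
    rw [LSeries.term_of_ne_zero hn.ne', LSeries.term_of_ne_zero hn.ne', Complex.cpow_add _ _ hn0,
      Complex.cpow_def_of_ne_zero hn0 z, ← Complex.natCast_log, neg_mul, Complex.exp_neg,
      mul_comm z]
    field_simp

/-- the inverse Laplace integral of a Dirichlet series -/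
lemma series_int {mu : ℕ → ℂ} {s : ℂ} {c : ℝ} (hc : 0 < c) (x : ℝ) {G : ℝ → ℂ}
    (hG : ∀ y : ℝ, HasSum (LSeries.term mu (s + (c + y * Complex.I))) (G y)) :
    HasSum (fun n : ℕ => LSeries.term mu s n * (2 * Real.pi * (vv (x - Real.log n) : ℂ)))
      (∫ y : ℝ, G y * (Complex.exp ((c + y * Complex.I) * x) * kap (c + y * Complex.I))) := by
  have hs : Summable (LSeries.term mu (s + c)) := by
    have := (hG 0).summable
    simpa using this
  set Fn : ℕ → ℝ → ℂ := fun n y => LSeries.term mu s n *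
    (Complex.exp ((c + y * Complex.I) * ((x - Real.log n : ℝ) : ℂ)) * kap (c + y * Complex.I))
    with hFn
  have hFn2 : ∀ n y, Fn n y = LSeries.term mu (s + (c + y * Complex.I)) n *
      (Complex.exp ((c + y * Complex.I) * x) * kap (c + y * Complex.I)) := by
    intro n y
    rw [term_add]
    simp only [hFn]
    rw [mul_assoc, ← mul_assoc (Complex.exp _) (Complex.exp _), ← Complex.exp_add]
    congr 3
    push_cast
    ring
  have hint : ∀ n, Integrable (Fn n) := fun n => (int_ek hc (x - Real.log n)).const_mul _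
  have hnorm : ∀ n, ∫ y, ‖Fn n y‖ = ‖LSeries.term mu (s + c) n‖ *
      ∫ y : ℝ, ‖Complex.exp ((c + y * Complex.I) * x) * kap (c + y * Complex.I)‖ := by
    intro n
    rw [← integral_const_mul]
    refine integral_congr_ae (Eventually.of_forall fun y => ?_)
    simp only
    rw [hFn2, norm_mul, LSeries.norm_term_eq, LSeries.norm_term_eq]
    simp
  have hsum : Summable fun n => ∫ y, ‖Fn n y‖ := by
    simp_rw [hnorm]
    exact hs.norm.mul_right _
  have h := hasSum_integral_of_summable_integral_norm hint hsum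
  have e1 : ∀ n, ∫ y, Fn n y = LSeries.term mu s n * (2 * Real.pi * (vv (x - Real.log n) : ℂ)) := by
    intro n
    simp only [hFn]
    rw [integral_const_mul, perron2 hc]
  have e2 : ∫ y, ∑' n, Fn n y =
      ∫ y : ℝ, G y * (Complex.exp ((c + y * Complex.I) * x) * kap (c + y * Complex.I)) := by
    refine integral_congr_ae (Eventually.of_forall fun y => ?_)
    simp only
    simp_rw [hFn2]
    rw [tsum_mul_right, (hG y).tsum_eq]
  rw [e2] at h
  exact h.congr_fun fun n => (e1 n).symm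

/-- the series for `x = log N` is the Dirichlet polynomial -/
lemma series_eq {mu : ℕ → ℂ} {s : ℂ} {N : ℕ} (hN : 1 ≤ N) {S : ℂ}
    (h : HasSum (fun n : ℕ => LSeries.term mu s n *
      (2 * Real.pi * (vv (Real.log N - Real.log n) : ℂ))) S) :
    S = 2 * Real.pi * DP N (moll mu N) s := by
  have hN0 : (0 : ℝ) < N := by exact_mod_cast hN
  have h1 : ∀ n ∉ Finset.Icc 1 N, LSeries.term mu s n *
      (2 * Real.pi * (vv (Real.log N - Real.log n) : ℂ)) = 0 := by
    intro n hn
    rcases Nat.eq_zero_or_pos n with rfl | hn0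
    · simp
    · rw [Finset.mem_Icc, not_and] at hn
      have h2 : N < n := not_le.mp (hn hn0)
      have h3 : Real.log N ≤ Real.log n := Real.log_le_log hN0 (by exact_mod_cast h2.le)
      rw [vv_of_nonpos (by linarith)]
      simp
  rw [h.unique (hasSum_sum_of_ne_finset_zero h1)]
  unfold DP
  rw [Finset.mul_sum]
  refine Finset.sum_congr rfl fun n hn => ?_
  rw [Finset.mem_Icc] at hn
  have hn0 : (0 : ℝ) < n := by exact_mod_cast hn.1
  have h3 : Real.log n ≤ Real.log N := Real.log_le_log hn0 (by exact_mod_cast hn.2)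
  rw [LSeries.term_of_ne_zero (by omega), vv_of_nonneg (by linarith), moll, Complex.cpow_neg,
    Real.log_div hN0.ne' hn0.ne']
  ring

lemma rpow_split {t y e : ℝ} (he : 0 ≤ e) :
    (1 + |t + y|) ^ e ≤ (1 + |t|) ^ e * (1 + |y|) ^ e := by
  have h1 := abs_nonneg t
  have h2 := abs_nonneg y
  have h3 := abs_add_le t y
  rw [← Real.mul_rpow (by linarith) (by linarith)]
  refine Real.rpow_le_rpow (by positivity) ?_ he
  nlinarith [mul_nonneg h1 h2]

/-- The estimate for one point `s`. -/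
lemma point_bound {mu : ℕ → ℂ} {F : ℂ → ℂ} {s : ℂ} {u0 c C0 T e1 : ℝ}
    (hu0 : u0 < 0) (hc : 0 < c) (he0 : 0 ≤ e1) (he1 : e1 ≤ 1 / 4) (hC0 : 0 < C0) (hT : 0 < T)
    (hU : ∃ U : Set ℂ, IsOpen U ∧ (∀ z : ℂ, u0 ≤ z.re → z.re ≤ c → z ∈ U) ∧
      DifferentiableOn ℂ (fun z => (F (s + z))⁻¹) U)
    (hG : ∀ z : ℂ, u0 ≤ z.re → z.re ≤ c → ‖(F (s + z))⁻¹‖ ≤ C0 * T * (1 + |z.im|) ^ e1)
    (hser : ∀ y : ℝ, HasSum (LSeries.term mu (s + (c + y * Complex.I)))
      (F (s + (c + y * Complex.I)))⁻¹) {N : ℕ} (hN : 1 ≤ N) :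
    ‖(F s)⁻¹ * (vv (Real.log N) : ℂ) - DP N (moll mu N) s‖ ≤
      (2 * Real.pi)⁻¹ * (2 * C0 * (4 / (min 1 (-u0)) ^ 2 * (1 + Real.exp (-u0))) *
        (∫ y : ℝ, (1 + |y|) ^ (-(3 / 2 : ℝ)))) * T * (N : ℝ) ^ u0 := by
  obtain ⟨U, hUo, hUm, hUd⟩ := hU
  have hN0 : (0 : ℝ) < N := by exact_mod_cast hN
  set x : ℝ := Real.log N with hx
  have hx0 : 0 ≤ x := Real.log_nonneg (by exact_mod_cast hN)
  set G : ℂ → ℂ := fun z => (F (s + z))⁻¹ with hGdef
  have h0U : (0 : ℂ) ∈ U := hUm 0 (by simpa using hu0.le) (by simpa using hc.le)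
  have hG0 : G 0 = (F s)⁻¹ := by simp [hGdef]
  set E : ℂ → ℂ := fun z => dslope G 0 z * (Complex.exp (z * x) * jj z) with hE
  have hEd : DifferentiableOn ℂ E U := by
    have h1 : DifferentiableOn ℂ (dslope G 0) U :=
      (Complex.differentiableOn_dslope (hUo.mem_nhds h0U)).mpr hUd
    have h2 : Differentiable ℂ (fun z : ℂ => Complex.exp (z * x)) := by fun_prop
    exact h1.mul (h2.mul jj_diff).differentiableOn
  have hEne : ∀ z : ℂ, z ≠ 0 → E z = (G z - G 0) * (Complex.exp (z * x) * kap z) := by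
    intro z hz
    simp only [hE]
    rw [dslope_of_ne _ hz, slope_def_field, jj_ne hz, kap]
    field_simp
    ring
  have hG0b : ‖G 0‖ ≤ C0 * T := by
    have := hG 0 (by simpa using hu0.le) (by simpa using hc.le)
    rw [hG0]
    simpa using this
  set c0 : ℝ := min 1 (-u0) with hc0
  have hc0p : 0 < c0 := by rw [hc0]; exact lt_min one_pos (by linarith)
  have hc01 : c0 ≤ 1 := min_le_left _ _
  set K : ℝ := 4 / c0 ^ 2 * (1 + Real.exp (-u0)) with hK
  have hK0 : 0 < K := by positivity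
  -- the bound away from zero
  have hEb : ∀ z : ℂ, u0 ≤ z.re → z.re ≤ c → (c0 ≤ |z.re| ∨ 1 ≤ |z.im|) →
      ‖E z‖ ≤ 2 * C0 * K * T * Real.exp (z.re * x) * (1 + |z.im|) ^ (-(3 / 2 : ℝ)) := by
    intro z h1 h2 h3
    have hz : z ≠ 0 := by
      rintro rfl
      rcases h3 with h3 | h3
      · simp at h3; linarith
      · simp at h3; linarith
    have him : (1 : ℝ) ≤ 1 + |z.im| := by have := abs_nonneg z.im; linarith
    have him0 : (0 : ℝ) < 1 + |z.im| := by linarith
    rw [hEne z hz, norm_mul, norm_mul, Complex.norm_exp]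
    have e1' : (z * (x : ℂ)).re = z.re * x := by simp
    rw [e1']
    have h4 : ‖G z - G 0‖ ≤ 2 * C0 * T * (1 + |z.im|) ^ e1 := by
      refine (norm_sub_le _ _).trans ?_
      have h5 := hG z h1 h2
      have h6 : (1 : ℝ) ≤ (1 + |z.im|) ^ e1 := Real.one_le_rpow him he0
      have h7 : C0 * T * 1 ≤ C0 * T * (1 + |z.im|) ^ e1 :=
        mul_le_mul_of_nonneg_left h6 (by positivity)
      have h8 : ‖G z‖ ≤ C0 * T * (1 + |z.im|) ^ e1 := h5
      linarith
    have h5 := kap_bound hc0p hc01 h1 h3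
    have h6 : (1 + |z.im|) ^ e1 * (1 + |z.im|) ^ (-2 : ℝ) ≤ (1 + |z.im|) ^ (-(3 / 2 : ℝ)) := by
      rw [← Real.rpow_add him0]
      exact Real.rpow_le_rpow_of_exponent_le him (by linarith)
    calc ‖G z - G 0‖ * (Real.exp (z.re * x) * ‖kap z‖)
        ≤ (2 * C0 * T * (1 + |z.im|) ^ e1) *
          (Real.exp (z.re * x) * (K * (1 + |z.im|) ^ (-2 : ℝ))) := by
          refine mul_le_mul h4 ?_ (by positivity) (by positivity)
          exact mul_le_mul_of_nonneg_left h5 (Real.exp_pos _).le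
      _ = 2 * C0 * K * T * Real.exp (z.re * x) *
          ((1 + |z.im|) ^ e1 * (1 + |z.im|) ^ (-2 : ℝ)) := by ring
      _ ≤ _ := mul_le_mul_of_nonneg_left h6 (by positivity)
  -- the bound near zero
  obtain ⟨B2, hB2⟩ : ∃ B2 : ℝ, ∀ z ∈ (Icc u0 c ×ℂ Icc (-1 : ℝ) 1), ‖E z‖ ≤ B2 := by
    refine IsCompact.exists_bound_of_continuousOn (isCompact_Icc.reProdIm isCompact_Icc) ?_
    refine hEd.continuousOn.mono ?_
    intro z hz
    rw [Complex.mem_reProdIm] at hz
    exact hUm z hz.1.1 hz.1.2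
  set B : ℝ := max (2 * C0 * K * T * Real.exp (c * x)) (4 * B2) with hB
  have hBall : ∀ z : ℂ, u0 ≤ z.re → z.re ≤ c → ‖E z‖ ≤ B * (1 + |z.im|) ^ (-(3 / 2 : ℝ)) := by
    intro z h1 h2
    have habs := abs_nonneg z.im
    rcases le_or_gt 1 |z.im| with h3 | h3
    · refine (hEb z h1 h2 (Or.inr h3)).trans ?_
      refine mul_le_mul_of_nonneg_right ?_ (by positivity)
      refine le_trans ?_ (le_max_left _ _)
      refine mul_le_mul_of_nonneg_left ?_ (by positivity)
      exact Real.exp_le_exp.mpr (mul_le_mul_of_nonneg_right h2 hx0)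
    · have h4 := hB2 z (by
        rw [Complex.mem_reProdIm]
        exact ⟨⟨h1, h2⟩, ⟨by linarith [neg_abs_le z.im], by linarith [le_abs_self z.im]⟩⟩)
      have h5 : (1 / 4 : ℝ) ≤ (1 + |z.im|) ^ (-(3 / 2 : ℝ)) := by
        have h6 : (2 : ℝ) ^ (-(2 : ℝ)) ≤ (2 : ℝ) ^ (-(3 / 2 : ℝ)) :=
          Real.rpow_le_rpow_of_exponent_le (by norm_num) (by norm_num)
        have h7 : (2 : ℝ) ^ (-(3 / 2 : ℝ)) ≤ (1 + |z.im|) ^ (-(3 / 2 : ℝ)) :=
          Real.rpow_le_rpow_of_nonpos (by linarith) (by linarith) (by norm_num)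
        have h8 : (2 : ℝ) ^ (-(2 : ℝ)) = 1 / 4 := by
          rw [Real.rpow_neg (by norm_num), Real.rpow_two]; norm_num
        linarith
      have hB20 : 0 ≤ B2 := (norm_nonneg _).trans h4
      have h6 : 4 * B2 ≤ B := le_max_right _ _
      have h7 : 0 ≤ B := by linarith
      calc ‖E z‖ ≤ B2 := h4
        _ ≤ B * (1 / 4) := by linarith
        _ ≤ B * (1 + |z.im|) ^ (-(3 / 2 : ℝ)) := mul_le_mul_of_nonneg_left h5 h7
  have hshift := contour_shift (H := E) (a := u0) (b := c) (B := B) (hu0.le.trans hc.le)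
    (fun z h1 h2 => (hEd.differentiableAt (hUo.mem_nhds (hUm z h1 h2)))) hBall
  -- the right line
  have hright : (∫ y : ℝ, E (c + y * Complex.I)) + G 0 * (2 * Real.pi * (vv x : ℂ)) =
      2 * Real.pi * DP N (moll mu N) s := by
    have iE : Integrable (fun y : ℝ => E (c + y * Complex.I)) :=
      vertical_integrable (fun z hz => (hEd.differentiableAt (hUo.mem_nhds
        (hUm z (by rw [hz]; linarith) hz.le))).continuousAt)
        (fun z hz => hBall z (by rw [hz]; linarith) hz.le)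
    have iK := (int_ek hc x).const_mul (G 0)
    have h1 := series_eq hN (series_int (mu := mu) (s := s) hc x
      (G := fun y => (F (s + (c + y * Complex.I)))⁻¹) hser)
    rw [← h1, ← perron2 hc x, ← integral_const_mul, ← integral_add iE iK]
    refine integral_congr_ae (Eventually.of_forall fun y => ?_)
    have hz : (c : ℂ) + y * Complex.I ≠ 0 := by
      intro h
      have := congrArg Complex.re h
      simp at this
      linarith
    simp only
    rw [hEne _ hz]
    simp only [hGdef]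
    ring
  -- the left line
  have hleft : ‖∫ y : ℝ, E (u0 + y * Complex.I)‖ ≤
      2 * C0 * K * T * Real.exp (u0 * x) * ∫ y : ℝ, (1 + |y|) ^ (-(3 / 2 : ℝ)) := by
    rw [← integral_const_mul]
    refine norm_integral_le_of_norm_le (integrable_decay.const_mul _)
      (Eventually.of_forall fun y => ?_)
    have h1 := hEb (u0 + y * Complex.I) (by simp) (by simpa using (hu0.le.trans hc.le)) (by
      left
      simp only [Complex.add_re, Complex.ofReal_re, Complex.mul_re, Complex.I_re, mul_zero,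
        Complex.ofReal_im, Complex.I_im, mul_one, sub_self, add_zero]
      rw [abs_of_neg hu0]
      exact min_le_right _ _)
    simpa using h1
  have hpi : (0 : ℝ) < Real.pi := Real.pi_pos
  have hexp : Real.exp (u0 * x) = (N : ℝ) ^ u0 := by
    rw [Real.rpow_def_of_pos hN0, hx, mul_comm]
  rw [hshift] at hleft
  have hfin : (F s)⁻¹ * (vv x : ℂ) - DP N (moll mu N) s =
      -((2 * Real.pi : ℝ) : ℂ)⁻¹ * ∫ y : ℝ, E (c + y * Complex.I) := by
    have h1 : ∫ y : ℝ, E (c + y * Complex.I) =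
        2 * Real.pi * DP N (moll mu N) s - G 0 * (2 * Real.pi * (vv x : ℂ)) := by
      rw [← hright]; ring
    rw [h1, hG0]
    have hpi' : (Real.pi : ℂ) ≠ 0 := by exact_mod_cast hpi.ne'
    push_cast
    field_simp
    ring
  rw [hfin, norm_mul, norm_neg, norm_inv, Complex.norm_real, Real.norm_of_nonneg (by positivity)]
  calc (2 * Real.pi)⁻¹ * ‖∫ y : ℝ, E (c + y * Complex.I)‖
      ≤ (2 * Real.pi)⁻¹ * (2 * C0 * K * T * Real.exp (u0 * x) *
        ∫ y : ℝ, (1 + |y|) ^ (-(3 / 2 : ℝ))) := mul_le_mul_of_nonneg_left hleft (by positivity)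
    _ = _ := by rw [hexp]; ring

/-- Task 2. -/
theorem approx (hL : Lit) : Approx := by
  intro lam mu F hF θ σ ε hZ hθ hε
  have hd : 0 < σ - θ := by linarith
  set e1 : ℝ := min ε (1 / 4) with he1
  have he10 : 0 < e1 := lt_min hε (by norm_num)
  have he1ε : e1 ≤ ε := min_le_left _ _
  have he14 : e1 ≤ 1 / 4 := min_le_right _ _
  set ε' : ℝ := min ε ((σ - θ) / 2) with hε'
  have hε'0 : 0 < ε' := lt_min hε (by linarith)
  have hε'1 : ε' ≤ ε := min_le_left _ _
  have hε'2 : ε' ≤ (σ - θ) / 2 := min_le_right _ _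
  set u0 : ℝ := -(σ - θ) + ε' with hu0d
  have hu0 : u0 < 0 := by rw [hu0d]; linarith
  set c : ℝ := |σ| + 2 with hcd
  have hσ := neg_abs_le σ
  have hσ' := abs_nonneg σ
  have hc : 0 < c := by rw [hcd]; linarith
  have hσc : 1 < σ + c := by rw [hcd]; linarith
  obtain ⟨C0, hC0, hC⟩ := hL lam mu F hF θ (θ + ε') (σ + c) e1 hZ (by linarith) he10
  set K : ℝ := (2 * Real.pi)⁻¹ * (2 * C0 * (4 / (min 1 (-u0)) ^ 2 * (1 + Real.exp (-u0))) *
        (∫ y : ℝ, (1 + |y|) ^ (-(3 / 2 : ℝ)))) with hK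
  have hI0 : 0 ≤ ∫ y : ℝ, (1 + |y|) ^ (-(3 / 2 : ℝ)) :=
    integral_nonneg fun y => by positivity
  have hK0 : 0 ≤ K := by
    have := Real.pi_pos
    positivity
  refine ⟨K + C0 * (3 : ℝ) ^ (-u0), by positivity, fun N hN t => ?_⟩
  have hN0 : (0 : ℝ) < N := by exact_mod_cast hN
  have hN1 : (1 : ℝ) ≤ N := by exact_mod_cast hN
  set s : ℂ := σ + t * Complex.I with hs
  have hsre : s.re = σ := by simp [hs]
  have hsim : s.im = t := by simp [hs]
  set T : ℝ := (1 + |t|) ^ e1 with hT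
  have hT0 : 0 < T := by positivity
  have hG : ∀ z : ℂ, u0 ≤ z.re → z.re ≤ c → ‖(F (s + z))⁻¹‖ ≤ C0 * T * (1 + |z.im|) ^ e1 := by
    intro z h1 h2
    have h3 := (hC (s + z) (by rw [Complex.add_re, hsre]; linarith)
      (by rw [Complex.add_re, hsre]; linarith)).2
    refine h3.trans ?_
    rw [mul_assoc, Complex.add_im, hsim]
    exact mul_le_mul_of_nonneg_left (rpow_split he10.le) hC0.le
  have hU : ∃ U : Set ℂ, IsOpen U ∧ (∀ z : ℂ, u0 ≤ z.re → z.re ≤ c → z ∈ U) ∧
      DifferentiableOn ℂ (fun z => (F (s + z))⁻¹) U := by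
    refine ⟨{z : ℂ | θ - σ < z.re}, isOpen_lt continuous_const Complex.continuous_re, ?_, ?_⟩
    · intro z h1 _
      show θ - σ < z.re
      linarith
    · intro z hz
      have hz' : θ - σ < z.re := hz
      have hne : F (s + z) ≠ 0 := hZ _ (by rw [Complex.add_re, hsre]; linarith)
      have hdf : DifferentiableAt ℂ (fun z => F (s + z)) z :=
        (hF.entire (s + z)).comp z (by fun_prop)
      exact (hdf.inv hne).differentiableWithinAt
  have hser : ∀ y : ℝ, HasSum (LSeries.term mu (s + (c + y * Complex.I)))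
      (F (s + (c + y * Complex.I)))⁻¹ := by
    intro y
    exact (hF.inv _ (by simp [hsre]; linarith)).2
  have hpt := point_bound hu0 hc he10.le he14 hC0 hT0 hU hG hser hN
  rw [← hK] at hpt
  have hF0 : ‖(F s)⁻¹‖ ≤ C0 * T := by
    have := hG 0 (by simpa using hu0.le) (by simpa using hc.le)
    simpa using this
  -- small `N`
  have hvv : 1 - vv (Real.log N) ≤ (3 : ℝ) ^ (-u0) * (N : ℝ) ^ u0 := by
    rcases le_or_gt 3 N with h3 | h3
    · have h4 : 1 ≤ Real.log N := by
        rw [Real.le_log_iff_exp_le hN0]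
        have h5 := Real.exp_one_lt_d9
        have h6 : (3 : ℝ) ≤ N := by exact_mod_cast h3
        linarith
      rw [vv_of_one_le h4, sub_self]
      positivity
    · have h4 : (N : ℝ) ≤ 3 := by exact_mod_cast h3.le
      have h5 : (3 : ℝ) ^ u0 ≤ (N : ℝ) ^ u0 := Real.rpow_le_rpow_of_nonpos hN0 h4 hu0.le
      have h6 : (3 : ℝ) ^ (-u0) * (3 : ℝ) ^ u0 = 1 := by
        rw [← Real.rpow_add (by norm_num)]; simp
      have h7 := mul_le_mul_of_nonneg_left h5
        (show (0 : ℝ) ≤ (3 : ℝ) ^ (-u0) by positivity)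
      have h8 := vv_nonneg (Real.log N)
      linarith
  have hmain : ‖(F s)⁻¹ - DP N (moll mu N) s‖ ≤
      (K + C0 * (3 : ℝ) ^ (-u0)) * T * (N : ℝ) ^ u0 := by
    have h1 : (F s)⁻¹ - DP N (moll mu N) s =
        ((F s)⁻¹ * (vv (Real.log N) : ℂ) - DP N (moll mu N) s) +
          (F s)⁻¹ * ((1 - vv (Real.log N) : ℝ) : ℂ) := by
      push_cast; ring
    rw [h1]
    refine (norm_add_le _ _).trans ?_
    rw [norm_mul (F s)⁻¹, Complex.norm_real,
      Real.norm_of_nonneg (by linarith [vv_le_one (Real.log N)])]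
    have h2 : ‖(F s)⁻¹‖ * (1 - vv (Real.log N)) ≤
        (C0 * T) * ((3 : ℝ) ^ (-u0) * (N : ℝ) ^ u0) :=
      mul_le_mul hF0 hvv (by linarith [vv_le_one (Real.log N)]) (by positivity)
    calc _ ≤ K * T * (N : ℝ) ^ u0 + (C0 * T) * ((3 : ℝ) ^ (-u0) * (N : ℝ) ^ u0) :=
          add_le_add hpt h2
      _ = _ := by ring
  refine hmain.trans ?_
  have hTε : T ≤ (1 + |t|) ^ ε :=
    Real.rpow_le_rpow_of_exponent_le (by linarith [abs_nonneg t]) he1ε
  have hNε : (N : ℝ) ^ u0 ≤ (N : ℝ) ^ (-(σ - θ) + ε) :=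
    Real.rpow_le_rpow_of_exponent_le hN1 (by rw [hu0d]; linarith)
  calc (K + C0 * (3 : ℝ) ^ (-u0)) * T * (N : ℝ) ^ u0
      ≤ (K + C0 * (3 : ℝ) ^ (-u0)) * (1 + |t|) ^ ε * (N : ℝ) ^ (-(σ - θ) + ε) := by gcongr
    _ = _ := by ring

end

end Pool.Agent.H959R2.Mol
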